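import Mathlib
import Pool.Agent.Lib.helper32.ProdBd

set_option autoImplicit false

namespace Pool.Agent.Results.MP_34945e_gt.Product

open Set Pool.Agent.Lib.helper32.ProdBd

universe u v

/-- balleans: entourages contain the diagonal, `E ∘ F⁻¹ ⊆ D`, and the entourages cover `X × X` -/
def Ballean {X : Type u} (𝓔 : Set (Set (X × X))) : Prop :=
  (∀ E ∈ 𝓔, ∀ x, (x, x) ∈ E) ∧
    (∀ E ∈ 𝓔, ∀ F ∈ 𝓔, ∃ D ∈ 𝓔, ∀ x y z, (x, y) ∈ E → (z, y) ∈ F → (x, z) ∈ D) ∧ ⋃₀ 𝓔 = univ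

/-- `E[x]` -/
def ball {X : Type u} (E : Set (X × X)) (x : X) : Set X := {y | (x, y) ∈ E}

def Bdd {X : Type u} (𝓔 : Set (Set (X × X))) (A : Set X) : Prop := ∃ E ∈ 𝓔, ∃ x, A ⊆ ball E x

/-- boundedly oscillating functions -/
def BO {X : Type u} (𝓔 : Set (Set (X × X))) (f : X → ℝ) : Prop :=
  ∃ C > 0, ∀ E ∈ 𝓔, ∃ B, Bdd 𝓔 B ∧ ∀ x ∉ B, Metric.ediam (f '' ball E x) < ENNReal.ofReal C

def BoBounded {X : Type u} (𝓔 : Set (Set (X × X))) : Prop :=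
  ∀ f : X → ℝ, BO 𝓔 f → ∃ B, Bdd 𝓔 B ∧ ∃ M, ∀ x ∉ B, |f x| ≤ M

/-- the entourage `E × F` -/
def pr {X : Type u} {Y : Type v} (E : Set (X × X)) (F : Set (Y × Y)) : Set ((X × Y) × (X × Y)) :=
  {p | (p.1.1, p.2.1) ∈ E ∧ (p.1.2, p.2.2) ∈ F}

/-- the product ballean -/
def prod {X : Type u} {Y : Type v} (𝓔 : Set (Set (X × X))) (𝓕 : Set (Set (Y × Y))) :
    Set (Set ((X × Y) × (X × Y))) := {D | ∃ E ∈ 𝓔, ∃ F ∈ 𝓕, D = pr E F}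

theorem idl {X : Type u} {𝓔 : Set (Set (X × X))} (h : Ballean 𝓔) : Idl (Bdd 𝓔) := by
  refine ⟨fun A B ⟨E, hE, x, hx⟩ hB => ⟨E, hE, x, hB.trans hx⟩, fun A B ⟨E, hE, x, hx⟩ ⟨F, hF, y, hy⟩ => ?_⟩
  obtain ⟨G, hG, hxy⟩ : (x, y) ∈ ⋃₀ 𝓔 := h.2.2 ▸ mem_univ _
  obtain ⟨F1, hF1, h1⟩ := h.2.1 F hF F hF
  obtain ⟨D1, hD1, h2⟩ := h.2.1 G hG F1 hF1
  obtain ⟨D2, hD2, h3⟩ := h.2.1 D1 hD1 D1 hD1
  obtain ⟨D, hD, h4⟩ := h.2.1 E hE D2 hD2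
  refine ⟨D, hD, x, union_subset (fun z hz => h4 x z z (hx hz) (h.1 _ hD2 z)) fun z hz => ?_⟩
  exact h4 x x z (h.1 _ hE x) (h3 z z x (h.1 _ hD1 z) (h2 x y z hxy (h1 z z y (h.1 _ hF z) (hy hz))))

theorem ne {X : Type u} {𝓔 : Set (Set (X × X))} (h : BoBounded 𝓔) : 𝓔.Nonempty := by
  by_contra h1
  obtain ⟨B, ⟨E, hE, -⟩, -⟩ := h 0 ⟨1, one_pos, fun E hE => (h1 ⟨E, hE⟩).elim⟩
  exact h1 ⟨E, hE⟩

/-- Q1: the product of two bo-bounded balleans is bo-bounded -/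
theorem result {X : Type u} {Y : Type v} (𝓔 : Set (Set (X × X))) (𝓕 : Set (Set (Y × Y))) (h𝓔 : Ballean 𝓔)
    (h𝓕 : Ballean 𝓕) (hX : BoBounded 𝓔) (hY : BoBounded 𝓕) : BoBounded (prod 𝓔 𝓕) := by
  rintro φ ⟨C, hC, hφ⟩
  obtain ⟨E0, hE0⟩ := ne hX
  obtain ⟨F0, hF0⟩ := ne hY
  have hlt : ENNReal.ofReal C < ENNReal.ofReal (C + 1) := (ENNReal.ofReal_lt_ofReal_iff (by linarith)).2 (by linarith)
  obtain ⟨A, B, M, ⟨E, hE, x, hx⟩, ⟨F, hF, y, hy⟩, h⟩ := glue hE0 (h𝓔.1 _ hE0) hF0 (h𝓕.1 _ hF0) (idl h𝓔) (idl h𝓕)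
    (fun _ h => h) (fun _ h => h) φ (fun _ _ C' => C' = C)
    (fun E hE F hF C' hC' => by
      obtain ⟨B, ⟨_, ⟨E', hE', F', hF', rfl⟩, p, hp⟩, h⟩ := hφ _ ⟨E, hE, F, hF, rfl⟩
      exact ⟨hC' ▸ hC.le, _, _, ⟨E', hE', p.1, subset_rfl⟩, ⟨F', hF', p.2, subset_rfl⟩,
        fun q hq => hC' ▸ (h q fun h => hq (hp h)).le⟩)
    (fun _ _ _ _ => ⟨C, rfl⟩)
    (fun g hg => by
      obtain ⟨B, hB, M, h⟩ := hX g ⟨C + 1, by linarith, fun E hE => by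
        obtain ⟨A, hA, h⟩ := hg E hE C rfl
        exact ⟨A, hA, fun x hx => (h x hx).trans_lt hlt⟩⟩
      exact ⟨B, M, hB, h⟩)
    (fun g hg => by
      obtain ⟨B, hB, M, h⟩ := hY g ⟨C + 1, by linarith, fun E hE => by
        obtain ⟨A, hA, h⟩ := hg E hE C rfl
        exact ⟨A, hA, fun x hx => (h x hx).trans_lt hlt⟩⟩
      exact ⟨B, M, hB, h⟩)
  exact ⟨_, ⟨_, ⟨E, hE, F, hF, rfl⟩, (x, y), fun p hp => ⟨hx hp.1, hy hp.2⟩⟩, M, h⟩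

end Pool.Agent.Results.MP_34945e_gt.Product
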